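import Pool.Agent.H28.N6.Targets

set_option autoImplicit false
open Matrix Polynomial

namespace Pool.Agent.H28.N6

section

variable {F : Type} [Field F]

theorem dp_eval {ι : Type} [Fintype ι] [DecidableEq ι] (A B : Matrix ι ι F) (t : F) :
    (dp A B).eval t = (A + t • B).det := by
  unfold dp
  rw [← Polynomial.coe_evalRingHom, RingHom.map_det]
  congr 1
  ext i j
  simp only [RingHom.mapMatrix_apply, Matrix.map_apply, Matrix.add_apply, Matrix.smul_apply,
    smul_eq_mul, Polynomial.coe_evalRingHom, eval_add, eval_mul, eval_C, eval_X]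

theorem dp_map {E : Type} [Field E] {ι : Type} [Fintype ι] [DecidableEq ι] (f : F →+* E)
    (A B : Matrix ι ι F) : (dp A B).map f = dp (A.map f) (B.map f) := by
  unfold dp
  rw [← Polynomial.coe_mapRingHom, RingHom.map_det]
  congr 1
  ext i j : 2
  simp [Matrix.map_apply]

theorem dp_congr {ι : Type} [Fintype ι] [DecidableEq ι] (M A B : Matrix ι ι F) :
    dp (Mᵀ * A * M) (Mᵀ * B * M) = C (M.det ^ 2) * dp A B := by
  unfold dp
  have h : (Mᵀ * A * M).map C + (X : F[X]) • (Mᵀ * B * M).map C =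
      (M.map C)ᵀ * (A.map C + (X : F[X]) • B.map C) * M.map C := by
    rw [Matrix.map_mul, Matrix.map_mul, Matrix.map_mul, Matrix.map_mul, Matrix.mul_add,
      Matrix.add_mul, Matrix.mul_smul, Matrix.smul_mul, Matrix.transpose_map]
  rw [h, det_mul, det_mul, det_transpose]
  have h2 : (M.map C).det = C M.det := by
    have := (RingHom.map_det (C : F →+* F[X]) M).symm
    simpa using this
  rw [h2, C_pow]
  ring

theorem dp_shift {ι : Type} [Fintype ι] [DecidableEq ι] (A B : Matrix ι ι F) (r : F) :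
    dp (A + r • B) B = (dp A B).comp (X + C r) := by
  unfold dp
  have h := RingHom.map_det (Polynomial.compRingHom (X + C r))
    (A.map C + (X : F[X]) • B.map C)
  rw [Polynomial.coe_compRingHom_apply] at h
  rw [h]
  congr 1
  ext i j : 2
  simp [Matrix.map_apply]
  ring

theorem dp_shift_eval {ι : Type} [Fintype ι] [DecidableEq ι] (A B : Matrix ι ι F) (r : F) :
    (dp (A + r • B) B).eval 0 = (dp A B).eval r ∧
      (dp (A + r • B) B).derivative.eval 0 = (dp A B).derivative.eval r := by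
  rw [dp_shift]
  constructor
  · simp
  · simp [derivative_comp]

theorem dp_congr_eval {ι : Type} [Fintype ι] [DecidableEq ι] (M A B : Matrix ι ι F) (t : F) :
    (dp (Mᵀ * A * M) (Mᵀ * B * M)).derivative.eval t = M.det ^ 2 * (dp A B).derivative.eval t := by
  rw [dp_congr, derivative_C_mul, eval_mul, eval_C]

theorem qf_congr {ι κ : Type} [Fintype ι] [Fintype κ] (M : Matrix ι κ F) (G : Matrix ι ι F)
    (z : κ → F) : qf (Mᵀ * G * M) z = qf G (M *ᵥ z) := by
  unfold qf
  rw [← mulVec_mulVec, ← mulVec_mulVec, dotProduct_mulVec, vecMul_transpose]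

theorem qf_add {ι : Type} [Fintype ι] (A B : Matrix ι ι F) (z : ι → F) :
    qf (A + B) z = qf A z + qf B z := by
  unfold qf
  rw [add_mulVec, dotProduct_add]

theorem qf_smul {ι : Type} [Fintype ι] (c : F) (A : Matrix ι ι F) (z : ι → F) :
    qf (c • A) z = c * qf A z := by
  unfold qf
  rw [smul_mulVec, dotProduct_smul, smul_eq_mul]

theorem qf_pencil {ι : Type} [Fintype ι] (A B : Matrix ι ι F) (t : F) (z : ι → F) :
    qf (A + t • B) z = qf A z + t * qf B z := by
  rw [qf_add, qf_smul]

theorem qf_smul_vec {ι : Type} [Fintype ι] (G : Matrix ι ι F) (c : F) (z : ι → F) :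
    qf G (c • z) = c ^ 2 * qf G z := by
  unfold qf
  rw [mulVec_smul, dotProduct_smul, smul_dotProduct, smul_eq_mul, smul_eq_mul]
  ring

theorem qf_zero {ι : Type} [Fintype ι] (G : Matrix ι ι F) : qf G (0 : ι → F) = 0 := by
  simp [qf]

/-- the polar form of a symmetric matrix is symmetric -/
theorem bil_comm {ι : Type} [Fintype ι] (G : Matrix ι ι F) (hG : G.transpose = G)
    (x y : ι → F) : x ⬝ᵥ (G *ᵥ y) = y ⬝ᵥ (G *ᵥ x) := by
  rw [dotProduct_mulVec, ← mulVec_transpose, hG, dotProduct_comm]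

theorem qf_polar {ι : Type} [Fintype ι] (G : Matrix ι ι F) (hG : G.transpose = G)
    (x y : ι → F) : qf G (x + y) = qf G x + qf G y + 2 * (x ⬝ᵥ (G *ᵥ y)) := by
  unfold qf
  rw [mulVec_add, dotProduct_add, add_dotProduct, add_dotProduct, bil_comm G hG y x]
  ring

theorem symm_congr {ι κ : Type} [Fintype ι] [Fintype κ] (M : Matrix ι κ F) (G : Matrix ι ι F)
    (hG : G.transpose = G) : (Mᵀ * G * M)ᵀ = Mᵀ * G * M := by
  rw [transpose_mul, transpose_mul, transpose_transpose, hG, Matrix.mul_assoc]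

/-- a symmetric matrix with zero quadratic form is zero -/
theorem eq_of_qf {ι : Type} [Fintype ι] [DecidableEq ι] (h2 : (2 : F) ≠ 0)
    (G H : Matrix ι ι F) (hG : G.transpose = G) (hH : H.transpose = H)
    (h : ∀ z, qf G z = qf H z) : G = H := by
  ext i j
  have e := h (Pi.single i 1 + Pi.single j 1)
  rw [qf_polar G hG, qf_polar H hH, h, h] at e
  have e2 : 2 * (Pi.single i 1 ⬝ᵥ (G *ᵥ Pi.single j (1 : F))) =
      2 * (Pi.single i 1 ⬝ᵥ (H *ᵥ Pi.single j (1 : F))) := by
    linear_combination e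
  have e3 := mul_left_cancel₀ h2 e2
  simpa using e3

theorem mulVec_inj {ι : Type} [Fintype ι] [DecidableEq ι] (M : Matrix ι ι F) (hM : M.det ≠ 0) :
    Function.Injective M.mulVec :=
  Matrix.mulVec_injective_of_isUnit ((Matrix.isUnit_iff_isUnit_det M).2 hM.isUnit)

theorem isoSp_of_inj {ι κ : Type} [Fintype ι] [Fintype κ] (M : Matrix ι κ F)
    (G : Matrix ι ι F) (hM : Function.Injective M.mulVec) (k : ℕ) (W : Submodule F (κ → F))
    (hW : Module.finrank F W = k) (h : ∀ z ∈ W, qf G (M *ᵥ z) = 0) : IsoSp G k := by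
  refine ⟨W.map M.mulVecLin, ?_, ?_⟩
  · rw [← hW]
    exact (Submodule.equivMapOfInjective M.mulVecLin hM W).finrank_eq.symm
  · intro z hz
    obtain ⟨w, hw, rfl⟩ := Submodule.mem_map.1 hz
    exact h w hw

theorem isoSp_congr_of {ι κ : Type} [Fintype ι] [Fintype κ] (M : Matrix ι κ F)
    (G : Matrix ι ι F) (hM : Function.Injective M.mulVec) (k : ℕ)
    (h : IsoSp (Mᵀ * G * M) k) : IsoSp G k := by
  obtain ⟨W, hW, h⟩ := h
  exact isoSp_of_inj M G hM k W hW fun z hz => by rw [← qf_congr]; exact h z hz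

theorem isoSp_congr {ι : Type} [Fintype ι] [DecidableEq ι] (M G : Matrix ι ι F)
    (hM : M.det ≠ 0) (k : ℕ) : IsoSp (Mᵀ * G * M) k ↔ IsoSp G k := by
  constructor
  · exact isoSp_congr_of M G (mulVec_inj M hM) k
  · intro h
    have hu : IsUnit M.det := hM.isUnit
    have e : (M⁻¹)ᵀ * (Mᵀ * G * M) * M⁻¹ = G := by
      rw [Matrix.mul_assoc, Matrix.mul_assoc, Matrix.mul_nonsing_inv _ hu, Matrix.mul_one,
        ← Matrix.mul_assoc, ← transpose_mul, Matrix.mul_nonsing_inv _ hu, transpose_one,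
        Matrix.one_mul]
    have hd : (M⁻¹).det ≠ 0 := by
      intro h0
      have := congrArg Matrix.det (Matrix.mul_nonsing_inv _ hu)
      rw [det_mul, h0, mul_zero, det_one] at this
      exact zero_ne_one this
    refine isoSp_congr_of M⁻¹ (Mᵀ * G * M) (mulVec_inj _ hd) k ?_
    rw [e]
    exact h

theorem isoSp_smul {ι : Type} [Fintype ι] (c : F) (G : Matrix ι ι F) (k : ℕ)
    (h : IsoSp G k) : IsoSp (c • G) k := by
  obtain ⟨W, hW, h⟩ := h
  exact ⟨W, hW, fun z hz => by rw [qf_smul, h z hz, mul_zero]⟩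

theorem isoSp_smul_iff {ι : Type} [Fintype ι] (c : F) (hc : c ≠ 0) (G : Matrix ι ι F) (k : ℕ) :
    IsoSp (c • G) k ↔ IsoSp G k := by
  refine ⟨fun h => ?_, isoSp_smul c G k⟩
  have := isoSp_smul c⁻¹ _ k h
  rwa [smul_smul, inv_mul_cancel₀ hc, one_smul] at this

/-- two independent vectors spanning a totally isotropic plane -/
theorem isoSp_pair {ι : Type} [Fintype ι] (G : Matrix ι ι F) (u v : ι → F)
    (hi : LinearIndependent F ![u, v]) (hu : qf G u = 0) (hv : qf G v = 0)
    (huv : qf G (u + v) = 0) : IsoSp G 2 := by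
  refine ⟨Submodule.span F {u, v}, ?_, ?_⟩
  · have := finrank_span_eq_card hi
    have e : Set.range ![u, v] = {u, v} := by
      simp [Matrix.range_cons, Matrix.range_empty, Set.pair_comm]
    rw [e] at this
    simpa using this
  · intro z hz
    obtain ⟨a, b, rfl⟩ := Submodule.mem_span_pair.1 hz
    have e : qf G (a • u + b • v) =
        a ^ 2 * qf G u + b ^ 2 * qf G v + a * b * (qf G (u + v) - qf G u - qf G v) := by
      simp only [qf, mulVec_add, mulVec_smul, dotProduct_add, add_dotProduct, dotProduct_smul,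
        smul_dotProduct, smul_eq_mul]
      ring
    rw [e, hu, hv, huv]
    ring

theorem ani_congr {ι : Type} [Fintype ι] [DecidableEq ι] (M G : Matrix ι ι F)
    (hM : M.det ≠ 0) (h : Ani G) : Ani (Mᵀ * G * M) := by
  intro z hz
  rw [qf_congr]
  refine h _ fun h0 => hz ?_
  apply mulVec_inj M hM
  simpa using h0

theorem ani_smul {ι : Type} [Fintype ι] (c : F) (hc : c ≠ 0) (G : Matrix ι ι F) (h : Ani G) :
    Ani (c • G) := by
  intro z hz
  rw [qf_smul]
  exact mul_ne_zero hc (h z hz)

theorem ani_det {ι : Type} [Fintype ι] [DecidableEq ι] (G : Matrix ι ι F) (h : Ani G) :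
    G.det ≠ 0 := by
  intro h0
  obtain ⟨v, hv, hv0⟩ := Matrix.exists_mulVec_eq_zero_iff.2 h0
  refine h v hv ?_
  unfold qf
  rw [hv0, dotProduct_zero]

/-- block form: zero first row and column off the diagonal -/
theorem qf_block {n : ℕ} (G : Matrix (Fin (n + 1)) (Fin (n + 1)) F)
    (h0 : ∀ i : Fin n, G 0 i.succ = 0) (h1 : ∀ i : Fin n, G i.succ 0 = 0)
    (z : Fin (n + 1) → F) :
    qf G z = G 0 0 * z 0 ^ 2 + qf (G.submatrix Fin.succ Fin.succ) (Fin.tail z) := by
  simp only [qf, dotProduct, mulVec, Fin.sum_univ_succ, h0, h1, Matrix.submatrix_apply, Fin.tail]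
  simp
  ring

theorem det_block {n : ℕ} (G : Matrix (Fin (n + 1)) (Fin (n + 1)) F)
    (h0 : ∀ i : Fin n, G 0 i.succ = 0) :
    G.det = G 0 0 * (G.submatrix Fin.succ Fin.succ).det := by
  rw [det_succ_row_zero, Fin.sum_univ_succ]
  simp [h0]

/-- a totally isotropic subspace of the lower block and the first coordinate -/
theorem finrank_cons {n k : ℕ} (P : Submodule F (Fin n → F)) (hP : Module.finrank F P = k) :
    ∃ W : Submodule F (Fin (n + 1) → F), Module.finrank F W = k + 1 ∧
      ∀ z, z ∈ W ↔ Fin.tail z ∈ P := by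
  let f : (Fin (n + 1) → F) ≃ₗ[F] F × (Fin n → F) :=
    { toFun := fun z => (z 0, Fin.tail z)
      invFun := fun p => Fin.cons p.1 p.2
      map_add' := fun x y => rfl
      map_smul' := fun c x => rfl
      left_inv := fun z => Fin.cons_self_tail z
      right_inv := fun p => by
        ext
        · simp
        · simp }
  refine ⟨((⊤ : Submodule F F).prod P).comap (f : (Fin (n + 1) → F) →ₗ[F] F × (Fin n → F)), ?_,
    ?_⟩
  · have e1 := (Submodule.comap_equiv_eq_map_symm f ((⊤ : Submodule F F).prod P))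
    rw [e1, LinearEquiv.finrank_map_eq]
    have e2 : Module.finrank F ((⊤ : Submodule F F).prod P) =
        Module.finrank F ((⊤ : Submodule F F) × P) :=
      LinearEquiv.finrank_eq
        { toFun := fun x => (⟨x.1.1, x.2.1⟩, ⟨x.1.2, x.2.2⟩)
          invFun := fun x => ⟨(x.1.1, x.2.1), x.1.2, x.2.2⟩
          map_add' := fun _ _ => rfl
          map_smul' := fun _ _ => rfl
          left_inv := fun _ => rfl
          right_inv := fun _ => rfl }
    rw [e2, Module.finrank_prod, hP]
    simp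
    ring
  · intro z
    simp [f]

end

end Pool.Agent.H28.N6
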