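import Mathlib

set_option autoImplicit false
open MeasureTheory

namespace Pool.Agent.H28.N6

/-- The value at `z` of the quadratic form with matrix `G`. -/
def qf {R ι : Type} [CommRing R] [Fintype ι] (G : Matrix ι ι R) (z : ι → R) : R :=
  dotProduct z (G.mulVec z)

/-- The form with matrix `G` has a totally isotropic subspace of dimension `k`. -/
def IsoSp {F ι : Type} [Field F] [Fintype ι] (G : Matrix ι ι F) (k : ℕ) : Prop :=
  ∃ W : Submodule F (ι → F), Module.finrank F W = k ∧ ∀ z ∈ W, qf G z = 0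

/-- The form with matrix `G` is anisotropic. -/
def Ani {F ι : Type} [Field F] [Fintype ι] (G : Matrix ι ι F) : Prop :=
  ∀ z : ι → F, z ≠ 0 → qf G z ≠ 0

/-- The polynomial `det (A + X B)`. -/
noncomputable def dp {F ι : Type} [Field F] [Fintype ι] [DecidableEq ι] (A B : Matrix ι ι F) :
    Polynomial F :=
  Matrix.det (A.map Polynomial.C + (Polynomial.X : Polynomial F) • B.map Polynomial.C)

/-- All roots of `det (a A + b B)` on the projective line over `F` are simple. -/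
def Simple {F ι : Type} [Field F] [Fintype ι] [DecidableEq ι] (A B : Matrix ι ι F) : Prop :=
  (∀ r : F, (dp A B).eval r = 0 → (dp A B).derivative.eval r ≠ 0) ∧
    ∀ r : F, (dp B A).eval r = 0 → (dp B A).derivative.eval r ≠ 0

/-- Normalised data of a locally compact ultrametric field: Haar measure, uniformizer and
number of residue classes. -/
structure Dat (F : Type) [NontriviallyNormedField F] [MeasurableSpace F] where
  μ : Measure F
  p : F
  q : ℕ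
  haar : μ.IsAddHaarMeasure
  one : μ {x : F | ‖x‖ ≤ 1} = 1
  p0 : p ≠ 0
  p1 : ‖p‖ < 1
  gen : ∀ x : F, ‖x‖ < 1 → ‖x‖ ≤ ‖p‖
  hq : 2 ≤ q
  idx : μ {x : F | ‖x‖ ≤ ‖p‖} = (q : ENNReal)⁻¹

section

variable {F : Type} [NontriviallyNormedField F] [MeasurableSpace F]

/-- Volume in `F ^ ι`. -/
noncomputable def vol (D : Dat F) {ι : Type} [Fintype ι] (A : Set (ι → F)) : ℝ :=
  (Measure.pi (fun _ : ι => D.μ) A).toReal

/-- Volume of the integral `z` with `‖G(z) + a‖ ≤ ‖p‖ ^ m`. -/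
noncomputable def V (D : Dat F) {ι : Type} [Fintype ι] (G : Matrix ι ι F) (a : F) (m : ℕ) : ℝ :=
  vol D {z : ι → F | (∀ i, ‖z i‖ ≤ 1) ∧ ‖qf G z + a‖ ≤ ‖D.p‖ ^ m}

/-- The operator `T`; it kills `q ^ (-m)`. -/
noncomputable def TT (q : ℕ) (v : ℕ → ℝ) (m : ℕ) : ℝ :=
  v m + ((q : ℝ) ^ 2 - q) * v (m + 1) - (q : ℝ) ^ 3 * v (m + 2)

/-- Volume of the integral `(x, y)` with `‖x y + a‖ ≤ ‖p‖ ^ m`. -/
noncomputable def hv (D : Dat F) (a : F) (m : ℕ) : ℝ :=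
  vol D {z : Fin 2 → F | (∀ i, ‖z i‖ ≤ 1) ∧ ‖z 0 * z 1 + a‖ ≤ ‖D.p‖ ^ m}

/-- The share of the directions `(1, t)`, `‖t‖ ≤ 1`, and `(t, 1)`, `‖t‖ < 1`, on which
`(x, y)` is small. -/
noncomputable def dir (D : Dat F) (x y : F) (m : ℕ) : ℝ :=
  (D.μ {t : F | ‖t‖ ≤ 1 ∧ ‖x + t * y‖ ≤ ‖D.p‖ ^ m}).toReal +
    (D.μ {t : F | ‖t‖ ≤ ‖D.p‖ ∧ ‖t * x + y‖ ≤ ‖D.p‖ ^ m}).toReal

/-- `U` is in `GL_n(O)`. -/
def InGL {ι : Type} [Fintype ι] [DecidableEq ι] (U : Matrix ι ι F) : Prop :=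
  (∀ i j, ‖U i j‖ ≤ 1) ∧ ‖U.det‖ = 1

end

end Pool.Agent.H28.N6
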