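import Pool.Agent.H28.N6.Defs
import Pool.Agent.H34.N6.Main

set_option autoImplicit false
open MeasureTheory

namespace Pool.Agent.H28.N6

/-- DAT: a locally compact ultrametric field has normalised data. -/
def T_DAT : Prop :=
  ∀ (F : Type) [NontriviallyNormedField F] [IsUltrametricDist F] [ProperSpace F]
    [MeasurableSpace F] [BorelSpace F], Nonempty (Dat F)

/-- NRM: norms are powers of the norm of the uniformizer. -/
def T_NRM : Prop :=
  ∀ (F : Type) [NontriviallyNormedField F] [IsUltrametricDist F] [ProperSpace F]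
    [MeasurableSpace F] [BorelSpace F] (D : Dat F) (x : F), x ≠ 0 →
    ∃ k : ℤ, ‖x‖ = ‖D.p‖ ^ k

/-- SQU: elements close to 1 are squares. -/
def T_SQU : Prop :=
  ∀ (F : Type) [NontriviallyNormedField F] [IsUltrametricDist F] [ProperSpace F],
    (2 : F) ≠ 0 → ∃ δ : ℝ, 0 < δ ∧ ∀ x : F, ‖x - 1‖ < δ → ∃ y : F, x = y ^ 2 ∧ ‖y - 1‖ < 1

/-- BAL: volumes of balls, translation, scaling, finiteness and monotonicity, all sets. -/
def T_BAL : Prop :=
  ∀ (F : Type) [NontriviallyNormedField F] [IsUltrametricDist F] [ProperSpace F]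
    [MeasurableSpace F] [BorelSpace F] (D : Dat F) (ι : Type) [Fintype ι],
    (∀ m : ℕ, vol D {z : ι → F | ∀ i, ‖z i‖ ≤ ‖D.p‖ ^ m} =
        (((D.q : ℝ) ^ (Fintype.card ι)) ^ m)⁻¹) ∧
      (∀ (A : Set (ι → F)) (c : ι → F), vol D ((fun z => z + c) ⁻¹' A) = vol D A) ∧
      (∀ (A : Set (ι → F)) (k : ℕ) (x : F), ‖x‖ = ‖D.p‖ ^ k →
        vol D ((fun z => x • z) ⁻¹' A) = ((D.q : ℝ) ^ (Fintype.card ι)) ^ k * vol D A) ∧
      (∀ A B : Set (ι → F), A ⊆ B → Bornology.IsBounded B → vol D A ≤ vol D B) ∧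
      (∀ A B : Set (ι → F), IsOpen A → IsOpen B → Bornology.IsBounded A →
        Bornology.IsBounded B → Disjoint A B → vol D (A ∪ B) = vol D A + vol D B) ∧
      ∀ A : Set (ι → F), IsOpen A → A.Nonempty → Bornology.IsBounded A → 0 < vol D A

/-- GLO: linear changes of variables. -/
def T_GLO : Prop :=
  ∀ (F : Type) [NontriviallyNormedField F] [IsUltrametricDist F] [ProperSpace F]
    [MeasurableSpace F] [BorelSpace F] (D : Dat F) (ι : Type) [Fintype ι] [DecidableEq ι]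
    (U : Matrix ι ι F), U.det ≠ 0 →
    ∃ c : ℝ, 0 < c ∧ (InGL U → c = 1) ∧
      ∀ A : Set (ι → F), vol D {z | U.mulVec z ∈ A} = c * vol D A

/-- ONE: maps of one variable which multiply distances by `‖c‖`. -/
def T_ONE : Prop :=
  ∀ (F : Type) [NontriviallyNormedField F] [IsUltrametricDist F] [ProperSpace F]
    [MeasurableSpace F] [BorelSpace F] (D : Dat F) (ψ : F → F) (k m : ℕ),
    (∀ s t : F, ‖s‖ ≤ 1 → ‖t‖ ≤ 1 → ‖ψ s - ψ t‖ = ‖D.p‖ ^ k * ‖s - t‖) → k ≤ m →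
    (D.μ {s : F | ‖s‖ ≤ 1 ∧ ‖ψ s‖ ≤ ‖D.p‖ ^ m}).toReal =
      if ‖ψ 0‖ ≤ ‖D.p‖ ^ k then ((D.q : ℝ) ^ (m - k))⁻¹ else 0

/-- FUB: slicing the first variable(s). -/
def T_FUB : Prop :=
  ∀ (F : Type) [NontriviallyNormedField F] [IsUltrametricDist F] [ProperSpace F]
    [MeasurableSpace F] [BorelSpace F] (D : Dat F) (n : ℕ) (A : Set (Fin (n + 1) → F)),
    IsOpen A → Bornology.IsBounded A → ∀ i : Fin (n + 1),
    vol D A = ∫ s, vol D {y : Fin n → F | i.insertNth s y ∈ A} ∂D.μ ∧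
      vol D A = ∫ y, (D.μ {s : F | i.insertNth s y ∈ A}).toReal
        ∂(Measure.pi (fun _ : Fin n => D.μ))

/-- FU2: slicing into two blocks. -/
def T_FU2 : Prop :=
  ∀ (F : Type) [NontriviallyNormedField F] [IsUltrametricDist F] [ProperSpace F]
    [MeasurableSpace F] [BorelSpace F] (D : Dat F) (m n : ℕ) (A : Set (Fin (m + n) → F)),
    IsOpen A → Bornology.IsBounded A →
    vol D A = ∫ e, vol D {y : Fin m → F | Fin.append y e ∈ A}
      ∂(Measure.pi (fun _ : Fin n => D.μ))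

/-- BOX: one box on which the `i`-th partial derivative has constant norm `‖p‖ ^ k`. -/
def T_BOX : Prop :=
  ∀ (F : Type) [NontriviallyNormedField F] [IsUltrametricDist F] [ProperSpace F]
    [MeasurableSpace F] [BorelSpace F] (D : Dat F) (n : ℕ)
    (G : Matrix (Fin (n + 1)) (Fin (n + 1)) F) (z0 : Fin (n + 1) → F) (i : Fin (n + 1))
    (j k : ℕ) (a : F), G.transpose = G → ‖2 * G.mulVec z0 i‖ = ‖D.p‖ ^ k →
    (∀ u v, ‖D.p‖ ^ j * ‖G u v‖ < ‖D.p‖ ^ k) → ∀ m, j + k ≤ m →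
    vol D {z | (∀ l, ‖z l - z0 l‖ ≤ ‖D.p‖ ^ j) ∧ ‖qf G z + a‖ ≤ ‖D.p‖ ^ m} =
      ((D.q : ℝ) ^ (m - (j + k)))⁻¹ *
        vol D {z | (∀ l, ‖z l - z0 l‖ ≤ ‖D.p‖ ^ j) ∧ ‖qf G z + a‖ ≤ ‖D.p‖ ^ (j + k)}

/-- SUB: nondegenerate level sets have volume exactly proportional to `q ^ (-m)`. -/
def T_SUB : Prop :=
  ∀ (F : Type) [NontriviallyNormedField F] [IsUltrametricDist F] [ProperSpace F]
    [MeasurableSpace F] [BorelSpace F] (D : Dat F), (2 : F) ≠ 0 →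
    ∀ (n : ℕ) (G : Matrix (Fin n) (Fin n) F) (K : Set (Fin n → F)) (A : Set F),
    G.transpose = G → IsCompact K → IsOpen K → IsCompact A →
    (∀ z ∈ K, ∀ a ∈ A, qf G z + a = 0 → G.mulVec z ≠ 0) →
    ∃ m0 : ℕ, ∀ a ∈ A, ∃ α : ℝ, ∀ m, m0 ≤ m →
      vol D {z | z ∈ K ∧ ‖qf G z + a‖ ≤ ‖D.p‖ ^ m} = α * ((D.q : ℝ) ^ m)⁻¹

/-- ANI: anisotropic forms: exact scaling and size. -/
def T_ANI : Prop :=
  ∀ (F : Type) [NontriviallyNormedField F] [IsUltrametricDist F] [ProperSpace F]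
    [MeasurableSpace F] [BorelSpace F] (D : Dat F) (n : ℕ) (G : Matrix (Fin n) (Fin n) F),
    Ani G →
    (∃ m0 : ℕ, ∀ m, m0 ≤ m → V D G 0 (m + 2) = ((D.q : ℝ) ^ n)⁻¹ * V D G 0 m) ∧
      ∃ c C : ℝ, 0 < c ∧ ∀ m, c * (Real.sqrt D.q ^ (n * m))⁻¹ ≤ V D G 0 m ∧
        V D G 0 m ≤ C * (Real.sqrt D.q ^ (n * m))⁻¹

/-- HVF: the volumes for the hyperbolic plane. -/
def T_HVF : Prop :=
  ∀ (F : Type) [NontriviallyNormedField F] [IsUltrametricDist F] [ProperSpace F]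
    [MeasurableSpace F] [BorelSpace F] (D : Dat F) (a : F) (m : ℕ),
    hv D a m = (1 - (D.q : ℝ)⁻¹) * ((D.q : ℝ) ^ m)⁻¹ *
      (((Finset.range m).filter (fun i => ‖a‖ ≤ ‖D.p‖ ^ i)).card : ℝ) +
        if ‖a‖ ≤ ‖D.p‖ ^ m then ((D.q : ℝ) ^ m)⁻¹ else 0

/-- HTB: the table for the hyperbolic plane. -/
def T_HTB : Prop :=
  ∀ (F : Type) [NontriviallyNormedField F] [IsUltrametricDist F] [ProperSpace F]
    [MeasurableSpace F] [BorelSpace F] (D : Dat F) (a : F) (m : ℕ),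
    (‖D.p‖ ^ m < ‖a‖ → TT D.q (hv D a) m = 0) ∧
      (‖a‖ ≤ ‖D.p‖ ^ m → ‖D.p‖ ^ (m + 1) ≤ ‖a‖ →
        TT D.q (hv D a) m = ((D.q : ℝ) ^ (m + 1))⁻¹) ∧
      (‖a‖ ≤ ‖D.p‖ ^ (m + 2) →
        TT D.q (hv D a) m = -(((D.q : ℝ) ^ 2 - 1) * ((D.q : ℝ) ^ (m + 1))⁻¹))

/-- HPN: hyperbolic plane plus anisotropic binary form. -/
def T_HPN : Prop :=
  ∀ (F : Type) [NontriviallyNormedField F] [IsUltrametricDist F] [ProperSpace F]
    [MeasurableSpace F] [BorelSpace F] (D : Dat F) (N : Matrix (Fin 2) (Fin 2) F), Ani N →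
    ∃ m0 : ℕ, ∀ m, m0 ≤ m →
      TT D.q (fun m => vol D {z : Fin 4 → F | (∀ i, ‖z i‖ ≤ 1) ∧
        ‖z 0 * z 1 + qf N ![z 2, z 3]‖ ≤ ‖D.p‖ ^ m}) m = 0

/-- WIT: an isotropic nondegenerate quaternary form without isotropic plane is a hyperbolic
plane plus an anisotropic binary form. -/
def T_WIT : Prop :=
  ∀ (F : Type) [Field F], (2 : F) ≠ 0 → ∀ G : Matrix (Fin 4) (Fin 4) F, G.transpose = G →
    G.det ≠ 0 → ¬ Ani G → ¬ IsoSp G 2 →
    ∃ (M : Matrix (Fin 4) (Fin 4) F) (N : Matrix (Fin 2) (Fin 2) F), M.det ≠ 0 ∧ Ani N ∧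
      N.transpose = N ∧
      ∀ z : Fin 4 → F, qf G (M.mulVec z) = z 0 * z 1 + qf N ![z 2, z 3]

/-- ISQ: `T` kills the volumes of an isotropic form without isotropic plane. -/
def T_ISQ : Prop :=
  ∀ (F : Type) [NontriviallyNormedField F] [IsUltrametricDist F] [ProperSpace F]
    [MeasurableSpace F] [BorelSpace F] (D : Dat F), (2 : F) ≠ 0 →
    ∀ G : Matrix (Fin 4) (Fin 4) F, G.transpose = G → G.det ≠ 0 → ¬ Ani G → ¬ IsoSp G 2 →
    ∃ m0 : ℕ, ∀ m, m0 ≤ m → TT D.q (V D G 0) m = 0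

/-- POS: `T` is nonnegative in the end when there is no isotropic plane. -/
def T_POS : Prop :=
  ∀ (F : Type) [NontriviallyNormedField F] [IsUltrametricDist F] [ProperSpace F]
    [MeasurableSpace F] [BorelSpace F] (D : Dat F), (2 : F) ≠ 0 →
    ∀ G : Matrix (Fin 4) (Fin 4) F, G.transpose = G → G.det ≠ 0 → ¬ IsoSp G 2 →
    (∃ m0 : ℕ, ∀ m, m0 ≤ m → 0 ≤ TT D.q (V D G 0) m) ∧
      (Ani G → ∃ (c : ℝ) (m0 : ℕ), 0 < c ∧ ∀ m, m0 ≤ m →
        c * ((D.q : ℝ) ^ (2 * m))⁻¹ ≤ TT D.q (V D G 0) m)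

/-- LCO: nearby nondegenerate forms are equivalent under `GL_n(O)`, close to the identity. -/
def T_LCO : Prop :=
  ∀ (F : Type) [NontriviallyNormedField F] [IsUltrametricDist F] [ProperSpace F],
    (2 : F) ≠ 0 → ∀ (n : ℕ) (G : Matrix (Fin n) (Fin n) F), G.transpose = G → G.det ≠ 0 →
    ∃ δ : ℝ, 0 < δ ∧ ∀ G' : Matrix (Fin n) (Fin n) F, G'.transpose = G' →
      (∀ i j, ‖G' i j - G i j‖ < δ) →
      ∃ U : Matrix (Fin n) (Fin n) F, InGL U ∧ U.transpose * G * U = G'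

/-- VLC: the volumes are locally constant where the determinant is not zero. -/
def T_VLC : Prop :=
  ∀ (F : Type) [NontriviallyNormedField F] [IsUltrametricDist F] [ProperSpace F]
    [MeasurableSpace F] [BorelSpace F] (D : Dat F), (2 : F) ≠ 0 →
    ∀ A B : Matrix (Fin 4) (Fin 4) F, A.transpose = A → B.transpose = B → ∀ t : F,
    (A + t • B).det ≠ 0 → ∃ δ : ℝ, 0 < δ ∧ ∀ s : F, ‖s - t‖ < δ →
      (∀ m, V D (A + s • B) 0 m = V D (A + t • B) 0 m) ∧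
      (Ani (A + t • B) → Ani (A + s • B))

/-- NF0: block form at a simple root of the determinant, in `GL_4(O)`. -/
def T_NF0 : Prop :=
  ∀ (F : Type) [NontriviallyNormedField F] [IsUltrametricDist F] [ProperSpace F],
    (2 : F) ≠ 0 →
    ∀ A B : Matrix (Fin 4) (Fin 4) F, A.transpose = A → B.transpose = B → ∀ r : F,
    (dp A B).eval r = 0 → (dp A B).derivative.eval r ≠ 0 → ¬ IsoSp (A + r • B) 2 →
    ∃ (U : Matrix (Fin 4) (Fin 4) F) (h B3 : Matrix (Fin 3) (Fin 3) F) (β : Fin 3 → F) (b : F),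
      InGL U ∧ h.transpose = h ∧ B3.transpose = B3 ∧ Ani h ∧ b ≠ 0 ∧
      ∀ z : Fin 4 → F, qf (A + r • B) (U.mulVec z) = qf h ![z 1, z 2, z 3] ∧
        qf B (U.mulVec z) = b * z 0 ^ 2 + 2 * z 0 * dotProduct β ![z 1, z 2, z 3] +
          qf B3 ![z 1, z 2, z 3]

/-- NFR: normal form near a simple root of the determinant. -/
def T_NFR : Prop :=
  ∀ (F : Type) [NontriviallyNormedField F] [IsUltrametricDist F] [ProperSpace F],
    (2 : F) ≠ 0 →
    ∀ A B : Matrix (Fin 4) (Fin 4) F, A.transpose = A → B.transpose = B → ∀ r : F,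
    (dp A B).eval r = 0 → (dp A B).derivative.eval r ≠ 0 → ¬ IsoSp (A + r • B) 2 →
    ∃ (h : Matrix (Fin 3) (Fin 3) F) (κ δ : ℝ), Ani h ∧ h.transpose = h ∧ 0 < κ ∧ 0 < δ ∧
      ∀ t : F, t ≠ r → ‖t - r‖ < δ →
        ∃ (U : Matrix (Fin 4) (Fin 4) F) (ε : F), InGL U ∧ ‖ε‖ = κ * ‖t - r‖ ∧
          ∀ z : Fin 4 → F,
            qf (A + t • B) (U.mulVec z) = ε * z 0 ^ 2 + qf h ![z 1, z 2, z 3]

/-- TEA: ternary forms, the large values. -/
def T_TEA : Prop :=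
  ∀ (F : Type) [NontriviallyNormedField F] [IsUltrametricDist F] [ProperSpace F]
    [MeasurableSpace F] [BorelSpace F] (D : Dat F), (2 : F) ≠ 0 →
    ∀ h : Matrix (Fin 3) (Fin 3) F, h.transpose = h → Ani h →
    ∃ l : ℕ, ∀ (a : F) (m : ℕ), ‖a‖ ≤ 1 → ‖D.p‖ ^ m < ‖D.p‖ ^ l * ‖a‖ →
      TT D.q (V D h a) m = 0

/-- TEB: ternary forms, the small values. -/
def T_TEB : Prop :=
  ∀ (F : Type) [NontriviallyNormedField F] [IsUltrametricDist F] [ProperSpace F]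
    [MeasurableSpace F] [BorelSpace F] (D : Dat F) (h : Matrix (Fin 3) (Fin 3) F), Ani h →
    ∀ l : ℕ, ∃ C : ℝ, ∀ (a : F) (m : ℕ), ‖D.p‖ ^ l * ‖a‖ ≤ ‖D.p‖ ^ m →
      |TT D.q (V D h a) m| ≤ C * (Real.sqrt D.q ^ (3 * m))⁻¹

/-- TER: the ternary estimate. -/
def T_TER : Prop :=
  ∀ (F : Type) [NontriviallyNormedField F] [IsUltrametricDist F] [ProperSpace F]
    [MeasurableSpace F] [BorelSpace F] (D : Dat F), (2 : F) ≠ 0 →
    ∀ h : Matrix (Fin 3) (Fin 3) F, h.transpose = h → Ani h →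
    ∃ (l : ℕ) (C : ℝ), ∀ (a : F) (m : ℕ), ‖a‖ ≤ 1 →
      (‖D.p‖ ^ m < ‖D.p‖ ^ l * ‖a‖ → TT D.q (V D h a) m = 0) ∧
      (‖D.p‖ ^ l * ‖a‖ ≤ ‖D.p‖ ^ m →
        |TT D.q (V D h a) m| ≤ C * (Real.sqrt D.q ^ (3 * m))⁻¹)

/-- NEA: `ε w² + h(y)` with small `ε`. -/
def T_NEA : Prop :=
  ∀ (F : Type) [NontriviallyNormedField F] [IsUltrametricDist F] [ProperSpace F]
    [MeasurableSpace F] [BorelSpace F] (D : Dat F), (2 : F) ≠ 0 →
    ∀ h : Matrix (Fin 3) (Fin 3) F, h.transpose = h → Ani h →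
    ∃ C : ℝ, ∀ (ε : F) (k m : ℕ), ‖ε‖ = ‖D.p‖ ^ k →
      |TT D.q (fun m => vol D {z : Fin 4 → F | (∀ i, ‖z i‖ ≤ 1) ∧
        ‖ε * z 0 ^ 2 + qf h ![z 1, z 2, z 3]‖ ≤ ‖D.p‖ ^ m}) m| ≤
        C * Real.sqrt D.q ^ k * ((D.q : ℝ) ^ (2 * m))⁻¹

/-- NRR: the estimate near a root of the determinant. -/
def T_NRR : Prop :=
  ∀ (F : Type) [NontriviallyNormedField F] [IsUltrametricDist F] [ProperSpace F]
    [MeasurableSpace F] [BorelSpace F] (D : Dat F), (2 : F) ≠ 0 →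
    ∀ A B : Matrix (Fin 4) (Fin 4) F, A.transpose = A → B.transpose = B → ∀ r : F,
    (dp A B).eval r = 0 → (dp A B).derivative.eval r ≠ 0 → ¬ IsoSp (A + r • B) 2 →
    ∃ (j : ℕ) (C : ℝ), ∀ (t : F) (k m : ℕ), ‖t - r‖ = ‖D.p‖ ^ k → j ≤ k →
      |TT D.q (V D (A + t • B) 0) m| ≤ C * Real.sqrt D.q ^ k * ((D.q : ℝ) ^ (2 * m))⁻¹

/-- MEA: for fixed `m` the volume is a locally constant function of the parameter. -/
def T_MEA : Prop :=
  ∀ (F : Type) [NontriviallyNormedField F] [IsUltrametricDist F] [ProperSpace F]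
    [MeasurableSpace F] [BorelSpace F] (D : Dat F) (A B : Matrix (Fin 4) (Fin 4) F) (m : ℕ),
    Continuous (fun t : F => V D (A + t • B) 0 m) ∧
      Continuous (fun t : F => TT D.q (V D (A + t • B) 0) m)

/-- CH1: the integral near a root of the determinant. -/
def T_CH1 : Prop :=
  ∀ (F : Type) [NontriviallyNormedField F] [IsUltrametricDist F] [ProperSpace F]
    [MeasurableSpace F] [BorelSpace F] (D : Dat F), (2 : F) ≠ 0 →
    ∀ A B : Matrix (Fin 4) (Fin 4) F, A.transpose = A → B.transpose = B → ∀ r : F,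
    (dp A B).eval r = 0 → (dp A B).derivative.eval r ≠ 0 → ¬ IsoSp (A + r • B) 2 →
    ∃ (J : ℕ) (C : ℝ), ∀ K m : ℕ, J ≤ K →
      |∫ t in {t : F | ‖t - r‖ ≤ ‖D.p‖ ^ K}, TT D.q (V D (A + t • B) 0) m ∂D.μ| ≤
        C * (Real.sqrt D.q ^ K)⁻¹ * ((D.q : ℝ) ^ (2 * m))⁻¹

/-- CH2: nonnegative in the end, uniformly on compact sets without roots. -/
def T_CH2 : Prop :=
  ∀ (F : Type) [NontriviallyNormedField F] [IsUltrametricDist F] [ProperSpace F]
    [MeasurableSpace F] [BorelSpace F] (D : Dat F), (2 : F) ≠ 0 →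
    ∀ A B : Matrix (Fin 4) (Fin 4) F, A.transpose = A → B.transpose = B →
    ∀ Q : Set F, IsCompact Q → (∀ t ∈ Q, (A + t • B).det ≠ 0) →
    (∀ t ∈ Q, ¬ IsoSp (A + t • B) 2) →
    ∃ m0 : ℕ, ∀ m, m0 ≤ m → ∀ t ∈ Q, 0 ≤ TT D.q (V D (A + t • B) 0) m

/-- CHA: one chart: the average is not much below zero. -/
def T_CHA : Prop :=
  ∀ (F : Type) [NontriviallyNormedField F] [IsUltrametricDist F] [ProperSpace F]
    [MeasurableSpace F] [BorelSpace F] (D : Dat F), (2 : F) ≠ 0 →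
    ∀ A B : Matrix (Fin 4) (Fin 4) F, A.transpose = A → B.transpose = B →
    (∀ t : F, ‖t‖ ≤ 1 → ¬ IsoSp (A + t • B) 2) →
    (∀ t : F, ‖t‖ ≤ 1 → (dp A B).eval t = 0 → (dp A B).derivative.eval t ≠ 0) →
    (∀ ε : ℝ, 0 < ε → ∃ m0 : ℕ, ∀ m, m0 ≤ m → -ε * ((D.q : ℝ) ^ (2 * m))⁻¹ ≤
      ∫ t in {t : F | ‖t‖ ≤ 1}, TT D.q (V D (A + t • B) 0) m ∂D.μ) ∧
    ((∃ t : F, ‖t‖ ≤ 1 ∧ Ani (A + t • B)) →
      ∃ (c : ℝ) (m0 : ℕ), 0 < c ∧ ∀ m, m0 ≤ m → c * ((D.q : ℝ) ^ (2 * m))⁻¹ ≤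
        ∫ t in {t : F | ‖t‖ ≤ 1}, TT D.q (V D (A + t • B) 0) m ∂D.μ)

/-- DIR: the table for the directions. -/
def T_DIR : Prop :=
  ∀ (F : Type) [NontriviallyNormedField F] [IsUltrametricDist F] [ProperSpace F]
    [MeasurableSpace F] [BorelSpace F] (D : Dat F) (x y : F) (m : ℕ),
    (‖D.p‖ ^ m < max ‖x‖ ‖y‖ → TT D.q (dir D x y) m = 0) ∧
      (max ‖x‖ ‖y‖ ≤ ‖D.p‖ ^ m → ‖D.p‖ ^ (m + 1) ≤ max ‖x‖ ‖y‖ →
        TT D.q (dir D x y) m = (D.q : ℝ)⁻¹) ∧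
      (max ‖x‖ ‖y‖ ≤ ‖D.p‖ ^ (m + 2) →
        TT D.q (dir D x y) m = -(((D.q : ℝ) ^ 4 - 1) * (D.q : ℝ)⁻¹))

/-- AVF: Fubini for the average over the directions. -/
def T_AVF : Prop :=
  ∀ (F : Type) [NontriviallyNormedField F] [IsUltrametricDist F] [ProperSpace F]
    [MeasurableSpace F] [BorelSpace F] (D : Dat F) (A B : Matrix (Fin 4) (Fin 4) F) (m : ℕ),
    (∫ t in {t : F | ‖t‖ ≤ 1}, V D (A + t • B) 0 m ∂D.μ) +
      (∫ t in {t : F | ‖t‖ ≤ ‖D.p‖}, V D (t • A + B) 0 m ∂D.μ) =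
      ∫ z in {z : Fin 4 → F | ∀ i, ‖z i‖ ≤ 1}, dir D (qf A z) (qf B z) m
        ∂(Measure.pi (fun _ : Fin 4 => D.μ))

/-- MSC: scaling for the common level sets. -/
def T_MSC : Prop :=
  ∀ (F : Type) [NontriviallyNormedField F] [IsUltrametricDist F] [ProperSpace F]
    [MeasurableSpace F] [BorelSpace F] (D : Dat F) (A B : Matrix (Fin 4) (Fin 4) F),
    (∀ z : Fin 4 → F, z ≠ 0 → qf A z = 0 → qf B z ≠ 0) →
    ∃ m0 : ℕ, ∀ m, m0 ≤ m →
      vol D {z : Fin 4 → F | (∀ i, ‖z i‖ ≤ 1) ∧ max ‖qf A z‖ ‖qf B z‖ ≤ ‖D.p‖ ^ (m + 2)} =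
        ((D.q : ℝ) ^ 4)⁻¹ *
          vol D {z : Fin 4 → F | (∀ i, ‖z i‖ ≤ 1) ∧ max ‖qf A z‖ ‖qf B z‖ ≤ ‖D.p‖ ^ m}

/-- AVG: without common zeros the average over the directions vanishes. -/
def T_AVG : Prop :=
  ∀ (F : Type) [NontriviallyNormedField F] [IsUltrametricDist F] [ProperSpace F]
    [MeasurableSpace F] [BorelSpace F] (D : Dat F) (A B : Matrix (Fin 4) (Fin 4) F),
    (∀ z : Fin 4 → F, z ≠ 0 → qf A z = 0 → qf B z ≠ 0) →
    ∃ m0 : ℕ, ∀ m, m0 ≤ m →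
      (∫ t in {t : F | ‖t‖ ≤ 1}, TT D.q (V D (A + t • B) 0) m ∂D.μ) +
        (∫ t in {t : F | ‖t‖ ≤ ‖D.p‖}, TT D.q (V D (t • A + B) 0) m ∂D.μ) = 0

/-- SCI: substitution `t = p s` in an integral. -/
def T_SCI : Prop :=
  ∀ (F : Type) [NontriviallyNormedField F] [IsUltrametricDist F] [ProperSpace F]
    [MeasurableSpace F] [BorelSpace F] (D : Dat F) (f : F → ℝ),
    (∫ t in {t : F | ‖t‖ ≤ ‖D.p‖}, f t ∂D.μ) =
      (D.q : ℝ)⁻¹ * ∫ s in {s : F | ‖s‖ ≤ 1}, f (D.p * s) ∂D.μ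

/-- SIM: simple roots in both charts. -/
def T_SIM : Prop :=
  ∀ (F : Type) [NontriviallyNormedField F] (n : ℕ) (A B : Matrix (Fin n) (Fin n) F),
    B.det ≠ 0 → (∀ r : F, (dp A B).eval r = 0 → (dp A B).derivative.eval r ≠ 0) →
    Simple A B

/-- SEP: the quaternary lemma, simple roots. -/
def T_SEP : Prop :=
  ∀ (F : Type) [NontriviallyNormedField F] [IsUltrametricDist F] [ProperSpace F],
    (2 : F) ≠ 0 → ∀ A B : Matrix (Fin 4) (Fin 4) F, A.transpose = A → B.transpose = B →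
    Simple A B → (∃ a b : F, Ani (a • A + b • B)) →
    ∃ a b : F, (a ≠ 0 ∨ b ≠ 0) ∧ IsoSp (a • A + b • B) 2

/-- DEN: if `B` is anisotropic, the `A` for which `det (A + X B)` has only simple roots in `F`,
none of them in a given finite set, are dense. -/
def T_DEN : Prop :=
  ∀ (F : Type) [NontriviallyNormedField F] (n : ℕ) (A B : Matrix (Fin n) (Fin n) F),
    A.transpose = A → B.transpose = B → Ani B → ∀ (Z : Finset F) (δ : ℝ), 0 < δ →
    ∃ A' : Matrix (Fin n) (Fin n) F, A'.transpose = A' ∧ (∀ i j, ‖A' i j - A i j‖ < δ) ∧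
      ∀ r : F, (dp A' B).eval r = 0 → r ∉ Z ∧ (dp A' B).derivative.eval r ≠ 0

/-- CPT: the set of pencils with an isotropic plane is closed. -/
def T_CPT : Prop :=
  ∀ (F : Type) [NontriviallyNormedField F] [IsUltrametricDist F] [ProperSpace F]
    (A B : Matrix (Fin 4) (Fin 4) F),
    (∀ δ : ℝ, 0 < δ → ∃ A' B' : Matrix (Fin 4) (Fin 4) F, (∀ i j, ‖A' i j - A i j‖ < δ) ∧
      (∀ i j, ‖B' i j - B i j‖ < δ) ∧ ∃ a b : F, (a ≠ 0 ∨ b ≠ 0) ∧
        IsoSp (a • A' + b • B') 2) →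
    ∃ a b : F, (a ≠ 0 ∨ b ≠ 0) ∧ IsoSp (a • A + b • B) 2

/-- QUA: the quaternary lemma: a pencil of quaternary forms with an anisotropic member has a
member with an isotropic plane. -/
def T_QUA : Prop :=
  ∀ (F : Type) [NontriviallyNormedField F] [IsUltrametricDist F] [ProperSpace F],
    (2 : F) ≠ 0 → ∀ A B : Matrix (Fin 4) (Fin 4) F, A.transpose = A → B.transpose = B →
    (∃ a b : F, Ani (a • A + b • B)) →
    ∃ a b : F, (a ≠ 0 ∨ b ≠ 0) ∧ IsoSp (a • A + b • B) 2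

/-- DER: the derivative of the determinant of a pencil when the first member has zero first row
and column. -/
def T_DER : Prop :=
  ∀ (F : Type) [Field F] (n : ℕ) (A B : Matrix (Fin (n + 1)) (Fin (n + 1)) F),
    (∀ j, A 0 j = 0) → (∀ i, A i 0 = 0) →
    (dp A B).eval 0 = 0 ∧ (dp A B).derivative.eval 0 =
      B 0 0 * (A.submatrix Fin.succ Fin.succ).det

/-- SPL: splitting off a vector of nonzero length. -/
def T_SPL : Prop :=
  ∀ (F : Type) [Field F] (n : ℕ) (S : Matrix (Fin (n + 1)) (Fin (n + 1)) F)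
    (v : Fin (n + 1) → F), qf S v ≠ 0 →
    ∃ M : Matrix (Fin (n + 1)) (Fin (n + 1)) F, M.det ≠ 0 ∧ (∀ i, M i 0 = v i) ∧
      ∀ i : Fin n, dotProduct v (S.mulVec (fun l => M l i.succ)) = 0

/-- KER: a root whose kernel vector is isotropic for the second form is multiple. -/
def T_KER : Prop :=
  ∀ (F : Type) [Field F] (n : ℕ) (A B : Matrix (Fin n) (Fin n) F) (t : F) (v : Fin n → F),
    A.transpose = A → B.transpose = B → v ≠ 0 → (A + t • B).mulVec v = 0 → qf B v = 0 →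
    (dp A B).derivative.eval t = 0

/-- NF7: normal form at a simple root of the determinant of a pencil. -/
def T_NF7 : Prop :=
  ∀ (F : Type) [Field F], (2 : F) ≠ 0 → ∀ R S : Matrix (Fin 7) (Fin 7) F,
    R.transpose = R → S.transpose = S → (dp R S).eval 0 = 0 →
    (dp R S).derivative.eval 0 ≠ 0 →
    ∃ (M : Matrix (Fin 7) (Fin 7) F) (R6 S6 : Matrix (Fin 6) (Fin 6) F) (s : F),
      M.det ≠ 0 ∧ R6.transpose = R6 ∧ S6.transpose = S6 ∧ R6.det ≠ 0 ∧ s ≠ 0 ∧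
      ∀ z : Fin 7 → F, qf R (M.mulVec z) = qf R6 (Fin.tail z) ∧
        qf S (M.mulVec z) = s * z 0 ^ 2 + qf S6 (Fin.tail z)

/-- NFS: near a degenerate member whose rank 6 part has an isotropic plane there is a
nondegenerate member with an isotropic 3-space. -/
def T_NFS : Prop :=
  ∀ (F : Type) [NontriviallyNormedField F] [IsUltrametricDist F] [ProperSpace F],
    (2 : F) ≠ 0 → ∀ (R6 S6 : Matrix (Fin 6) (Fin 6) F) (s : F), R6.transpose = R6 →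
    S6.transpose = S6 → R6.det ≠ 0 → s ≠ 0 → IsoSp R6 2 →
    ∃ u : F, u ≠ 0 ∧ (R6 + u • S6).det ≠ 0 ∧ ∃ W : Submodule F (Fin 7 → F),
      Module.finrank F W = 3 ∧
      ∀ z ∈ W, u * s * z 0 ^ 2 + qf (R6 + u • S6) (Fin.tail z) = 0

/-- MOV: moving the common zero off the branch locus. -/
def T_MOV : Prop :=
  ∀ (F : Type) [NontriviallyNormedField F] [IsUltrametricDist F] [ProperSpace F],
    (2 : F) ≠ 0 → ∀ (R6 S6 : Matrix (Fin 6) (Fin 6) F) (s : F), R6.transpose = R6 →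
    S6.transpose = S6 → R6.det ≠ 0 → s ≠ 0 → ∀ y : Fin 6 → F, y ≠ 0 → qf R6 y = 0 →
    qf S6 y = 0 → (∀ c : F, S6.mulVec y ≠ c • R6.mulVec y) →
    ∃ (y' : Fin 6 → F) (w : F), w ≠ 0 ∧ qf R6 y' = 0 ∧ s * w ^ 2 + qf S6 y' = 0

/-- LI0: four independent vectors orthogonal to `y` for both forms. -/
def T_LI0 : Prop :=
  ∀ (F : Type) [Field F] (R6 S6 : Matrix (Fin 6) (Fin 6) F) (y : Fin 6 → F),
    R6.transpose = R6 → S6.transpose = S6 → R6.det ≠ 0 → qf R6 y = 0 → qf S6 y ≠ 0 →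
    ∃ N : Matrix (Fin 6) (Fin 4) F, (∀ z : Fin 4 → F, N.mulVec z = 0 → z = 0) ∧
      ∀ z : Fin 4 → F, dotProduct (R6.mulVec y) (N.mulVec z) = 0 ∧
        dotProduct (S6.mulVec y) (N.mulVec z) = 0

/-- LIF: the quaternary pencil attached to a common zero. -/
def T_LIF : Prop :=
  ∀ (F : Type) [Field F], (2 : F) ≠ 0 → ∀ (R6 S6 : Matrix (Fin 6) (Fin 6) F) (s w : F)
    (y : Fin 6 → F), R6.transpose = R6 → S6.transpose = S6 → R6.det ≠ 0 → s ≠ 0 → w ≠ 0 →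
    qf R6 y = 0 → s * w ^ 2 + qf S6 y = 0 →
    ∃ R4 S4 : Matrix (Fin 4) (Fin 4) F, R4.transpose = R4 ∧ S4.transpose = S4 ∧
      (¬ Ani R4 → IsoSp R6 2) ∧
      ∀ a b : F, IsoSp (a • R4 + b • S4) 2 → ∃ W : Submodule F (Fin 7 → F),
        Module.finrank F W = 3 ∧
        ∀ z ∈ W, a * qf R6 (Fin.tail z) + b * (s * z 0 ^ 2 + qf S6 (Fin.tail z)) = 0

/-- SVA: from a degenerate member with an isotropic 3-space to a nondegenerate one. -/
def T_SVA : Prop :=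
  ∀ (F : Type) [NontriviallyNormedField F] [IsUltrametricDist F] [ProperSpace F],
    (2 : F) ≠ 0 → ∀ A B : Matrix (Fin 7) (Fin 7) F, A.transpose = A → B.transpose = B →
    ∀ e : F, (dp A B).eval e = 0 → (dp A B).derivative.eval e ≠ 0 → IsoSp (A + e • B) 3 →
    ∃ t : F, (A + t • B).det ≠ 0 ∧ IsoSp (A + t • B) 3

/-- INF: from the member at infinity to a finite one. -/
def T_INF : Prop :=
  ∀ (F : Type) [NontriviallyNormedField F] [IsUltrametricDist F] [ProperSpace F],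
    (2 : F) ≠ 0 → ∀ (n k : ℕ) (A B : Matrix (Fin n) (Fin n) F), A.transpose = A →
    B.transpose = B → B.det ≠ 0 → IsoSp B k →
    ∃ t : F, (A + t • B).det ≠ 0 ∧ IsoSp (A + t • B) k

/-- SV1: the local lemma when the determinant has a root in the field. -/
def T_SV1 : Prop :=
  ∀ (F : Type) [NontriviallyNormedField F] [IsUltrametricDist F] [ProperSpace F],
    (2 : F) ≠ 0 → ∀ A B : Matrix (Fin 7) (Fin 7) F, A.transpose = A → B.transpose = B →
    (dp A B).natDegree = 7 → (dp A B).Separable → (∃ e : F, (dp A B).eval e = 0) →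
    (∃ x : Fin 7 → F, x ≠ 0 ∧ qf A x = 0 ∧ qf B x = 0) →
    ∃ t : F, (A + t • B).det ≠ 0 ∧ IsoSp (A + t • B) 3

/-- ROT: a root in an extension of odd degree, which is again a local field. -/
def T_ROT : Prop :=
  ∀ (F : Type) [NontriviallyNormedField F] [IsUltrametricDist F] [ProperSpace F]
    (P : Polynomial F), Odd P.natDegree →
    ∃ (E : Type) (_ : NontriviallyNormedField E) (_ : IsUltrametricDist E) (_ : ProperSpace E)
      (_ : Algebra F E), Module.Finite F E ∧ Odd (Module.finrank F E) ∧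
      (∀ x : F, ‖algebraMap F E x‖ = ‖x‖) ∧ ∃ e : E, Polynomial.aeval e P = 0

/-- SEV: THE LOCAL LEMMA: two quadratic forms in 7 variables over a local field with separable
determinant and a common zero: over an extension of odd degree some nondegenerate member of the
pencil has an isotropic 3-space. -/
def T_SEV : Prop :=
  ∀ (F : Type) [NontriviallyNormedField F] [IsUltrametricDist F] [ProperSpace F],
    (2 : F) ≠ 0 → ∀ A B : Matrix (Fin 7) (Fin 7) F, A.transpose = A → B.transpose = B →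
    (dp A B).natDegree = 7 → (dp A B).Separable →
    (∃ x : Fin 7 → F, x ≠ 0 ∧ qf A x = 0 ∧ qf B x = 0) →
    ∃ (E : Type) (_ : NontriviallyNormedField E) (_ : IsUltrametricDist E) (_ : ProperSpace E)
      (_ : Algebra F E), Module.Finite F E ∧ Odd (Module.finrank F E) ∧
      (∀ x : F, ‖algebraMap F E x‖ = ‖x‖) ∧
      ∃ t : E, (A.map (algebraMap F E) + t • B.map (algebraMap F E)).det ≠ 0 ∧
        IsoSp (A.map (algebraMap F E) + t • B.map (algebraMap F E)) 3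

/-- SPW: Springer for totally isotropic subspaces. -/
def T_SPW : Prop :=
  ∀ (k K : Type) [Field k] [Field K] [Algebra k K] [FiniteDimensional k K], (2 : k) ≠ 0 →
    Odd (Module.finrank k K) → ∀ (n r : ℕ) (A : Matrix (Fin n) (Fin n) k), A.transpose = A →
    A.det ≠ 0 → IsoSp (A.map (algebraMap k K)) r → IsoSp A r

/-- CNV: the two ways to state the existence of totally isotropic subspaces. -/
def T_CNV : Prop :=
  ∀ (F : Type) [Field F], (2 : F) ≠ 0 → ∀ (n r : ℕ) (A : Matrix (Fin n) (Fin n) F),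
    A.transpose = A → (IsoSp A r ↔ Pool.Agent.H34.N6.TI A r)

/-- DDP: the determinant of the model pencil. -/
def T_DDP : Prop :=
  ∀ (F : Type) [Field F] (P D : Polynomial F), P.Monic → P.natDegree = 7 → IsCoprime P D →
    ∃ c : F, c ≠ 0 ∧ dp (Pool.Agent.H34.N6.gA P D 1) (-Pool.Agent.H34.N6.gA P D 0) =
      Polynomial.C c * P

/-- GMP: the model and homomorphisms of fields. -/
def T_GMP : Prop :=
  ∀ (F E : Type) [Field F] [Field E] (ι : F →+* E) (P D : Polynomial F) (s : ℕ), P.Monic →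
    P.natDegree = 7 →
    Pool.Agent.H34.N6.gA (P.map ι) (D.map ι) s = (Pool.Agent.H34.N6.gA P D s).map ι

end Pool.Agent.H28.N6
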